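import Pool.Agent.K1H54.LO3.Cv

/-!
Finite-time blow-up for arbitrarily small conservative lower-order perturbations of the
three-dimensional periodic Navier-Stokes equations (and of the Euler equations), and of all
conservative equations of the same strength.

The nonlinearity and the viscous term are exactly those of the Navier-Stokes equations. To them
we add a given term `A(u, u)` (for instance `A = 0`), which conserves the energy and is not
stronger than the nonlinearity of Navier-Stokes itself, and a term `B(u, u)`, where `B` is a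
bilinear operator of lower order, arbitrarily small, acting only on arbitrarily high frequencies,
and such that the energy identity is exactly the same (`∫ B(v, w) · w = 0`).

The nonlinearity `(v · ∇) w` satisfies `‖(v · ∇) w‖ ≤ (∑ |v̂ k|) ‖∇ w‖` (norms of `L²`), and
`B` satisfies `‖B(v, w)‖ ≤ δ (∑ |k|^(s-1) |v̂ k|) ‖∇ w‖`, for any given `s > 1/2` and
`δ > 0`. (Without the nonlinearity of the Navier-Stokes equations, such a term would be subcritical
for the energy if `s < 1/2`.) One operator `B` works for all viscosities `ν ≥ 0`, and there are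
arbitrarily small data in `H^(s₁)`, `s₁ < s - 1/2`, whose solutions blow up in arbitrarily
short time (`α = 1` below is the case of the Navier-Stokes equations; since `s < 1` is arbitrary,
all `α < 5/4` are allowed, the range of Lions' exponent).
-/

namespace Pool.Agent.K1H54.Reserve.LowerOrderPerturbation

open Set Pool.Agent.K1H54.St

theorem result : ∀ (δ s α N₁ s₀ M : ℝ) (A : (E → E) → (E → E) → E → E), 0 < δ → 1 / 2 < s →
    s < 1 → 0 ≤ α → 2 * α < s + 3 / 2 → s₀ < s → Cons A →
    (∀ v w, Fld v → Fld w → ∀ X, (∀ y, ‖v y‖ ≤ X) →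
      √(ip (A v w) (A v w)) ≤ M * ((X + wie (s₀ - 1) v) * √(dir w))) →
    ∃ B : (E → E) → (E → E) → E → E, Cons B ∧
      (∀ v w, Fld v → Fld w → √(ip (B v w) (B v w)) ≤ δ * (wie (s - 1) v * √(dir w))) ∧
      (∀ v w, Fld v → Fld w → (∀ k, N₁ ≤ ‖fq k‖ → hat v k = 0) → B v w = 0) ∧
      (∀ v w, Fld v → Fld w → (∀ k, N₁ ≤ ‖fq k‖ → hat w k = 0) →
        ∀ k, ¬ N₁ ≤ ‖fq k‖ → hat (B v w) k = 0) ∧
      ∀ ν η s₁ : ℝ, 0 ≤ ν → 0 < η → s₁ < s + 3 / 2 - 2 * α → ∃ (T : ℝ) (u : ℝ → E → E),
        0 < T ∧ T ≤ η ∧ Sol ν α (fun v w => A v w + B v w) T u ∧ Trig (u 0) ∧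
        sob s₁ (u 0) ≤ η ∧
        (∀ (T' : ℝ) (v : ℝ → E → E), 0 < T' → Sol ν α (fun v w => A v w + B v w) T' v →
          v 0 = u 0 → T' ≤ T ∧ ∀ t ∈ Ico 0 T', v t = u t) ∧
        (∀ t ∈ Ico 0 T, HasDerivWithinAt (fun τ => ip (u τ) (u τ)) (-(2 * (ν * sob α (u t))))
          (Ico 0 T) t) ∧
        ∀ K : ℝ, ∃ t ∈ Ico 0 T, ∃ y, K < ‖u t y‖ :=
  Pool.Agent.K1H54.L3.v3'

end Pool.Agent.K1H54.Reserve.LowerOrderPerturbation
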