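import Pool.Agent.K1H54.RC.One

/-!
# Global regularity for the Navier-Stokes equations with random couplings of local triads in sparse bands

The nonlinear term of the periodic Navier-Stokes equations is a sum over triads `{l, k - l, -k}` of
frequencies. We multiply the interactions of each triad by a coupling constant (one constant for the six
interactions of a triad, so real fields stay real and energy is conserved); if all constants are one, these
are the Navier-Stokes equations. The constants may be arbitrary (for example equal to one) outside an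
arbitrarily sparse sequence of frequency bands `(N, N^p]`, and for all nonlocal triads at all scales; the
constants of the local triads in the bands are independent with small mean.
-/

open Set MeasureTheory ProbabilityTheory
open scoped ContDiff

/-
Reserve (not handed in). Claim text:

Proves: Let S be an infinite set of natural numbers, p>1, a,g>=0, C real, and X_t in [-1,1] independent random variables, one per triad t={l,k-l,-k} of Z^3 up to sign, with |E X_t|<=C top^(-g) for the triads with N<top<=N^p for some N in S and low>top^a; the other X_t are arbitrary, e.g. 1. Then almost surely: for all real A>max(1/2,5/4-g/2,5/(4p),5a/4), nu>0 and smooth Z^3-periodic div-free v on R^3 the equation d_t u_i+sum_j prod(u_j,d_j u_i)=-nu(-Lap)^A u_i-d_i q, div u=0, u(0)=v, with the interactions of each triad t multiplied by X_t, has a smooth periodic solution (u,q) on [0,oo), and u is unique.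
Definitions: four: Fourier coefficient; prod: sum over k,l of phi(l,k)four f(l)four g(k-l)exp(2 pi i k.x), phi=coupled X: X_t, but 1 if l, k-l or k is 0; fl: (-Lap)^A by its symbol |2 pi k|^(2A) (A=1: -Lap); triad: t; top, low: largest, smallest max norm of l,k-l,k; pd; Data: v; Sol, WellPosed: as said.
Relation: Partial answer to Q1: statement (B) for a restricted model; decides none of (A)-(D). A=1, X_t=1 is exactly Navier-Stokes. For A=1 (g>1/2,p>5/4,a<4/5) random signs on the local triads of arbitrarily sparse bands, all other interactions exact, give (B) for all data. Without randomness (p=1 or a=1) A>5/4 is Lions' bound; the energy law is kept, so contrast Tao 2016 (averaged Navier-Stokes blows up). Model: Kraichnan's random coupling (1961). New as far as I know.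
-/

namespace Pool.Agent.Results.MP_6bf1e5_an.RandomCoupling

/-- `ℝ³`. -/
abbrev R3 := Fin 3 → ℝ

/-- `ℤ³`, the frequencies; `‖k‖` is the maximum norm. -/
abbrev Z3 := Fin 3 → ℤ

/-- The partial derivative `∂f/∂x_j` at `x`. -/
noncomputable def pd (j : Fin 3) (f : R3 → ℝ) (x : R3) : ℝ := fderiv ℝ f x (Pi.single j 1)

/-- The Fourier coefficient `∫_{[0,1]³} f(x) exp(-2πi k·x) dx`. -/
noncomputable def four (f : R3 → ℝ) (k : Z3) : ℂ :=
  ∫ x in Icc (0 : R3) 1,
    (f x : ℂ) * Complex.exp (-(2 * Real.pi * Complex.I * ∑ j, (k j : ℂ) * (x j : ℂ)))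

/-- The product of two periodic functions with the weights `φ`:
`∑_k (∑_l φ(l,k) f^(l) g^(k-l)) exp(2πi k·x)`. For `φ = 1` it is `f(x) g(x)`. -/
noncomputable def prod (φ : Z3 → Z3 → ℝ) (f g : R3 → ℝ) (x : R3) : ℝ :=
  (∑' k : Z3, (∑' l : Z3, (φ l k : ℂ) * (four f l * four g (k - l))) *
    Complex.exp (2 * Real.pi * Complex.I * ∑ j, (k j : ℂ) * (x j : ℂ))).re

/-- The fractional Laplacian `(-Δ)^α f = ∑_k |2πk|^(2α) f^(k) exp(2πi k·x)`; `(-Δ)^1 = -Δ` (`fl_one`). -/
noncomputable def fl (α : ℝ) (f : R3 → ℝ) (x : R3) : ℝ :=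
  (∑' k : Z3, (((2 * Real.pi) ^ 2 * ∑ j, (k j : ℝ) ^ 2) ^ α : ℝ) * four f k *
    Complex.exp (2 * Real.pi * Complex.I * ∑ j, (k j : ℂ) * (x j : ℂ))).re

/-- The triad `{l, k - l, -k}` of three frequencies with sum zero, up to a change of sign. -/
def triad (l k : Z3) : Sym2 (Multiset Z3) := s({l, k - l, -k}, {-l, l - k, k})

/-- The largest frequency of the triad `{l, k - l, -k}`. -/
noncomputable def top (l k : Z3) : ℝ := max ‖l‖ (max ‖k - l‖ ‖k‖)

/-- The smallest frequency of the triad `{l, k - l, -k}`. -/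
noncomputable def low (l k : Z3) : ℝ := min ‖l‖ (min ‖k - l‖ ‖k‖)

/-- The weights given by one coupling constant `c t` for each triad `t`; the interactions with the mean are
not changed. -/
noncomputable def coupled (c : Sym2 (Multiset Z3) → ℝ) (l k : Z3) : ℝ :=
  if l = 0 ∨ k - l = 0 ∨ k = 0 then 1 else c (triad l k)

/-- Smooth periodic divergence free vector fields. -/
structure Data (v : R3 → R3) : Prop where
  smooth : ContDiff ℝ ∞ v
  periodic : ∀ x j, v (x + Pi.single j 1) = v x
  divFree : ∀ x, ∑ i, pd i (fun y => v y i) x = 0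

/-- `(u, q)` is a smooth periodic solution of the equations with weights `φ`, viscosity `ν`, exponent `α` and
initial velocity `v`: `u` and `q` are `C^∞` on `ℝ³ × [0,∞)` (with one-sided time derivatives at `t = 0`) and
`ℤ³`-periodic in `x`, `∂_t u_i + ∑_j prod φ u_j (∂_j u_i) = -ν (-Δ)^α u_i - ∂_i q`, `div u = 0` and
`u(·,0) = v`. -/
structure Sol (φ : Z3 → Z3 → ℝ) (α ν : ℝ) (v : R3 → R3) (u : ℝ → R3 → R3) (q : ℝ → R3 → ℝ) : Prop where
  smooth_u : ContDiffOn ℝ ∞ (fun z : ℝ × R3 => u z.1 z.2) (Ici 0 ×ˢ univ)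
  smooth_q : ContDiffOn ℝ ∞ (fun z : ℝ × R3 => q z.1 z.2) (Ici 0 ×ˢ univ)
  periodic_u : ∀ t, 0 ≤ t → ∀ x j, u t (x + Pi.single j 1) = u t x
  periodic_q : ∀ t, 0 ≤ t → ∀ x j, q t (x + Pi.single j 1) = q t x
  momentum : ∀ t, 0 ≤ t → ∀ x i,
    derivWithin (fun s => u s x i) (Ici 0) t
        + ∑ j, prod φ (fun y => u t y j) (pd j fun y => u t y i) x
      = -(ν * fl α (fun y => u t y i) x) - pd i (q t) x
  divFree : ∀ t, 0 ≤ t → ∀ x, ∑ i, pd i (fun y => u t y i) x = 0
  initial : u 0 = v

/-- There is a global smooth solution with initial velocity `v`, and its velocity is unique. -/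
def WellPosed (φ : Z3 → Z3 → ℝ) (α ν : ℝ) (v : R3 → R3) : Prop :=
  ∃ u q, Sol φ α ν v u q ∧ ∀ u' q', Sol φ α ν v u' q' → ∀ t, 0 ≤ t → u' t = u t

open Pool.Agent.K1H54.RC in
lemma mult_eq (α ν : ℝ) (f : R3 → ℝ) (x : R3) : mult (sy ν α) f x = ν * fl α f x := by
  unfold mult fl sy
  rw [← Complex.re_ofReal_mul, ← tsum_mul_left]
  congr 1
  refine tsum_congr fun k => ?_
  have : Pool.Agent.K1H29.NC.four f k = four f k := rfl
  rw [this]
  push_cast
  ring

/-- For exponent one the dissipation is the Laplacian. -/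
theorem fl_one {f : R3 → ℝ} (hf : ContDiff ℝ ∞ f) (hp : ∀ x j, f (x + Pi.single j 1) = f x) (x : R3) :
    fl 1 f x = -∑ j, pd j (pd j f) x := by
  have h := Pool.Agent.K1H54.RC.mult_one (f := f) ⟨hf, fun j x => hp x j⟩ 1 x
  rw [mult_eq, one_mul, one_mul] at h
  exact h

lemma sol_iff {φ : Z3 → Z3 → ℝ} {α ν : ℝ} {v : R3 → R3} {u : ℝ → R3 → R3} {q : ℝ → R3 → ℝ} :
    Sol φ α ν v u q ↔ Pool.Agent.K1H54.RC.SolD φ (Pool.Agent.K1H54.RC.sy ν α) v u q := by
  constructor
  · intro h
    exact ⟨h.smooth_u, h.smooth_q, h.periodic_u, h.periodic_q, fun t ht x i => by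
      rw [mult_eq]; exact h.momentum t ht x i, h.divFree, h.initial⟩
  · intro h
    exact ⟨h.smooth_u, h.smooth_p, h.periodic_u, h.periodic_p, fun t ht x i => by
      have := h.momentum t ht x i
      rw [mult_eq] at this
      exact this, h.divFree, h.initial⟩

lemma top_eq (l k : Z3) : top l k = Pool.Agent.K1H54.RC.hi l k := by
  unfold top Pool.Agent.K1H54.RC.hi
  simp only [Pool.Agent.K1H54.RC.nn_eq_norm]

lemma low_eq (l k : Z3) : low l k = Pool.Agent.K1H54.RC.lo l k := by
  unfold low Pool.Agent.K1H54.RC.lo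
  simp only [Pool.Agent.K1H54.RC.nn_eq_norm]

/-- **Random couplings of the local triads in sparse bands.** Let `X t` be independent random variables in
`[-1, 1]`, one for each triad `t`, such that for all local triads (`low > top^a`) in the bands
(`N < top ≤ N^p`, `N ∈ S`, where `S` is an arbitrary infinite set) the mean of `X t` is at most
`C top^(-γ)` in absolute value; nothing is assumed about the other means, for example these `X t` may be
constants equal to one. Then almost surely the equations with the couplings `X` and dissipation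
`ν (-Δ)^α` have a unique global smooth solution for every smooth periodic divergence free initial velocity
and every `ν > 0`, if `α` is larger than `1/2`, `5/4 - γ/2`, `5/(4p)` and `5a/4`. For `α = 1` (that is,
`γ > 1/2`, `p > 5/4`, `a < 4/5`) these are the Navier-Stokes equations with couplings `X`. -/
theorem result {Ω : Type*} [MeasurableSpace Ω] {P : Measure Ω} [IsProbabilityMeasure P]
    {X : Sym2 (Multiset Z3) → Ω → ℝ} (hX : ∀ t, Measurable (X t)) (hb : ∀ t w, |X t w| ≤ 1)
    (hI : iIndepFun X P) {S : Set ℕ} (hS : S.Infinite) {p a γ C : ℝ} (hp : 1 < p) (ha : 0 ≤ a)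
    (hγ : 0 ≤ γ)
    (hE : ∀ N ∈ S, ∀ l k, (N : ℝ) < top l k → top l k ≤ (N : ℝ) ^ p → top l k ^ a < low l k →
      |∫ w, X (triad l k) w ∂P| ≤ C * top l k ^ (-γ)) :
    ∀ᵐ w ∂P, ∀ (α ν : ℝ) (v : R3 → R3), 1 / 2 < α → 5 / 4 - γ / 2 < α → 5 / 4 < α * p →
      5 / 4 * a < α → 0 < ν → Data v → WellPosed (coupled fun t => X t w) α ν v := by
  have h := Pool.Agent.K1H54.RC.main4 (P := P) hX hb hI hS hp ha hγ (C := C) (by
    intro N hN l k h1 h2 h3
    rw [← top_eq] at h1 h2 h3 ⊢
    rw [← low_eq] at h3
    exact hE N hN l k h1 h2 h3)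
  filter_upwards [h] with w hw α ν v h1 h2 h3 h4 hν hv
  have hv' : Pool.Agent.K1H29.NC.Data v := ⟨hv.smooth, hv.periodic, hv.divFree⟩
  obtain ⟨u, q, hu, hq⟩ := Pool.Agent.K1H54.RC.solD_of_fsw (Pool.Agent.K1H54.RC.cpl_Wt fun t => hb t w)
    (show 0 < α by linarith) hν hv' (hw α ν v h1 h2 h3 (by linarith) hν hv')
  exact ⟨u, q, sol_iff.2 hu, fun u' q' h' t ht => hq u' q' (sol_iff.1 h') t ht⟩

end Pool.Agent.Results.MP_6bf1e5_an.RandomCoupling
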